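import Pool.Agent.Helper21.DN.Stmts

set_option autoImplicit false

namespace Pool.Agent.Helper21.DN

universe u

section
variable {p : ℕ} [Fact p.Prime] {k : Type u} [Field k] [CharP k p]

lemma ntr_charK : CharP (LaurentSeries k) p :=
  charP_of_injective_algebraMap (algebraMap k (LaurentSeries k)).injective p

/-- the differences of two of the test elements are not of the form `u^p - u` -/
lemma ntr_order (i j : ℕ) (hij : i < j) (u : LaurentSeries k)
    (h : (HahnSeries.single (-((i : ℤ) * p + 1)) (1 : k) : LaurentSeries k) -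
      HahnSeries.single (-((j : ℤ) * p + 1)) (1 : k) = u ^ p - u) : False := by
  have hp : p.Prime := Fact.out
  have hp2 : (2 : ℤ) ≤ p := by exact_mod_cast hp.two_le
  set v := HahnSeries.addVal ℤ k with hv
  have hvi : v (HahnSeries.single (-((i : ℤ) * p + 1)) (1 : k)) = ((-((i : ℤ) * p + 1) : ℤ) : WithTop ℤ) := by
    rw [hv, HahnSeries.addVal_apply, HahnSeries.orderTop_single one_ne_zero]
  have hvj : v (HahnSeries.single (-((j : ℤ) * p + 1)) (1 : k)) = ((-((j : ℤ) * p + 1) : ℤ) : WithTop ℤ) := by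
    rw [hv, HahnSeries.addVal_apply, HahnSeries.orderTop_single one_ne_zero]
  have hlt : ((-((j : ℤ) * p + 1) : ℤ) : WithTop ℤ) < ((-((i : ℤ) * p + 1) : ℤ) : WithTop ℤ) := by
    have : -((j : ℤ) * p + 1) < -((i : ℤ) * p + 1) := by
      have h1 : (i : ℤ) < j := by exact_mod_cast hij
      nlinarith
    exact_mod_cast this
  have hL : v (u ^ p - u) = ((-((j : ℤ) * p + 1) : ℤ) : WithTop ℤ) := by
    rw [← h, AddValuation.map_sub_swap, ← hvj]
    apply AddValuation.map_sub_eq_of_lt_left
    rw [hvi, hvj]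
    exact hlt
  have hj0 : (0 : ℤ) ≤ (j : ℤ) * p := by positivity
  rcases lt_or_ge (v u) 0 with hu | hu
  · obtain ⟨n, hn⟩ := WithTop.ne_top_iff_exists.mp (ne_top_of_lt hu)
    rw [← hn] at hu
    have hn0 : n < 0 := by exact_mod_cast hu
    have hpow : v (u ^ p) = (((p : ℤ) * n : ℤ) : WithTop ℤ) := by
      rw [AddValuation.map_pow, ← hn]
      rw [← WithTop.coe_nsmul, nsmul_eq_mul]
    have hlt2 : v (u ^ p) < v u := by
      rw [hpow, ← hn]
      have : (p : ℤ) * n < n := by nlinarith
      exact_mod_cast this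
    have h3 : v (u ^ p - u) = v (u ^ p) := AddValuation.map_sub_eq_of_lt_left v hlt2
    rw [hL, hpow] at h3
    have h4 : -((j : ℤ) * p + 1) = (p : ℤ) * n := by exact_mod_cast h3
    have h5 : (p : ℤ) ∣ 1 := ⟨-(n + j), by linarith⟩
    have := Int.le_of_dvd one_pos h5
    linarith
  · have h1 : 0 ≤ v (u ^ p) := by
      rw [AddValuation.map_pow]
      exact nsmul_nonneg hu p
    have h2 : 0 ≤ v (u ^ p - u) := by
      have := AddValuation.map_sub v (u ^ p) u
      exact le_trans (le_min h1 hu) this
    rw [hL] at h2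
    have h3 : (0 : ℤ) ≤ -((j : ℤ) * p + 1) := by exact_mod_cast h2
    linarith

end

theorem st_NTR : ST_NTR.{u} := by
  intro p _ k _ _ _ L _ _ _ _ f
  by_contra hcon
  push Not at hcon
  haveI : CharP (LaurentSeries k) p := ntr_charK
  haveI : CharP L p := charP_of_injective_algebraMap (algebraMap (LaurentSeries k) L).injective p
  obtain ⟨y0, hy0⟩ := hcon 0
  rw [map_zero, add_zero] at hy0
  have hz : ∀ h : LaurentSeries k, ∃ z : L, z ^ p - z = algebraMap (LaurentSeries k) L h := by
    intro h
    obtain ⟨y, hy⟩ := hcon h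
    refine ⟨y - y0, ?_⟩
    rw [sub_pow_char]
    linear_combination hy - hy0
  choose z hzz using hz
  set hh : ℕ → LaurentSeries k := fun j => HahnSeries.single (-((j : ℤ) * p + 1)) (1 : k) with hhh
  -- the finite set of the solutions of w^p = w
  have hfin : {w : L | w ^ p - w = 0}.Finite := by
    have hp : p.Prime := Fact.out
    have hne : (Polynomial.X ^ p - Polynomial.X : Polynomial L) ≠ 0 :=
      FiniteField.X_pow_card_sub_X_ne_zero L hp.one_lt
    refine (Polynomial.rootSet_finite (Polynomial.X ^ p - Polynomial.X : Polynomial L) L).subset ?_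
    intro w hw
    rw [Polynomial.mem_rootSet]
    refine ⟨hne, ?_⟩
    simpa using hw
  haveI : Finite {w : L | w ^ p - w = 0} := hfin
  haveI : Finite (L ≃ₐ[LaurentSeries k] L) := inferInstance
  let F : ℕ → ((L ≃ₐ[LaurentSeries k] L) → {w : L | w ^ p - w = 0}) := fun j σ =>
    ⟨σ (z (hh j)) - z (hh j), by
      show (σ (z (hh j)) - z (hh j)) ^ p - (σ (z (hh j)) - z (hh j)) = 0
      rw [sub_pow_char]
      have h1 := hzz (hh j)
      have h2 : σ (z (hh j)) ^ p - σ (z (hh j)) = algebraMap (LaurentSeries k) L (hh j) := by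
        rw [← map_pow, ← map_sub, h1, AlgEquiv.commutes]
      linear_combination h2 - h1⟩
  obtain ⟨i, j, hne, hF⟩ := Finite.exists_ne_map_eq_of_infinite F
  have hfix : ∀ a b : ℕ, F a = F b → ∃ u : LaurentSeries k, hh a - hh b = u ^ p - u := by
    intro a b hab
    have h1 : ∀ σ : L ≃ₐ[LaurentSeries k] L, σ (z (hh a) - z (hh b)) = z (hh a) - z (hh b) := by
      intro σ
      have h2 : σ (z (hh a)) - z (hh a) = σ (z (hh b)) - z (hh b) := by
        have := congrFun hab σ
        exact congrArg Subtype.val this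
      rw [map_sub]
      linear_combination h2
    obtain ⟨u, hu⟩ := (IsGalois.mem_range_algebraMap_iff_fixed (z (hh a) - z (hh b))).mpr h1
    refine ⟨u, ?_⟩
    apply (algebraMap (LaurentSeries k) L).injective
    rw [map_sub, map_sub, map_pow, hu, sub_pow_char, ← hzz (hh a), ← hzz (hh b)]
    ring
  rcases lt_or_gt_of_ne hne with h | h
  · obtain ⟨u, hu⟩ := hfix i j hF
    exact ntr_order i j h u hu
  · obtain ⟨u, hu⟩ := hfix j i hF.symm
    exact ntr_order j i h u hu

end Pool.Agent.Helper21.DN
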